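import Pool.Agent.H61.BRX.Stmts

/-!
# Row SUM of board BRX
-/

set_option autoImplicit false

namespace Pool.STN

theorem sum_F (x : ℕ) (h2 : 2 ≤ x) (hd : ¬ x % 3 = 0) : 7 * x ≤ 6 * F x := by
  unfold F
  rw [if_neg hd]
  split_ifs with h
  · omega
  · omega

theorem sum_step (m i : ℕ) (h2 : 2 ≤ F^[i] m) (hd : ¬ dd m i) :
    7 * F^[i] m ≤ 6 * F^[i + 1] m := by
  have h1 : F^[i + 1] m = F (F^[i] m) := Function.iterate_succ_apply' F i m
  rw [h1]
  exact sum_F (F^[i] m) h2 hd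

theorem sum_rec (m : ℕ) (h2 : ∀ i, 2 ≤ F^[i] m) (X : ℝ) (hX : 0 < X)
    (hXi : ∀ i, X ≤ (F^[i] m : ℝ)) (i : ℕ) :
    (if dd m (i + 1) then (0 : ℝ) else 1 / (3 * (F^[i + 1] m : ℝ))) ≤
      6 / 7 * (if dd m i then (0 : ℝ) else 1 / (3 * (F^[i] m : ℝ))) +
        (if sw m i then 1 / (3 * X) else 0) := by
  have hpos : ∀ j, (0 : ℝ) < (F^[j] m : ℝ) := fun j => lt_of_lt_of_le hX (hXi j)
  have hXp : (0 : ℝ) < 1 / (3 * X) := by positivity
  by_cases h1 : dd m (i + 1)
  · have hs : ¬ sw m i := fun h => h.2 h1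
    rw [if_pos h1, if_neg hs]
    by_cases h0 : dd m i
    · rw [if_pos h0]; norm_num
    · rw [if_neg h0]
      have := hpos i
      positivity
  · rw [if_neg h1]
    by_cases h0 : dd m i
    · have hs : sw m i := ⟨h0, h1⟩
      rw [if_pos h0, if_pos hs, mul_zero, zero_add]
      exact one_div_le_one_div_of_le (by positivity) (by linarith [hXi (i + 1)])
    · have hs : ¬ sw m i := fun h => h0 h.1
      rw [if_neg h0, if_neg hs, add_zero]
      have h7 : (7 : ℝ) * (F^[i] m : ℝ) ≤ 6 * (F^[i + 1] m : ℝ) := by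
        exact_mod_cast sum_step m i (h2 i) h0
      have ha := hpos i
      have hb := hpos (i + 1)
      rw [← mul_div_assoc, mul_one, div_le_div_iff₀ (by positivity) (by positivity)]
      nlinarith

theorem SUM_thm : SUMStmt := by
  intro m k h2 hper X hX hXi
  have hdk : dd m k ↔ dd m 0 := by
    have h := hper 0
    rw [Nat.zero_add] at h
    unfold dd
    rw [h]
  have hfk : (F^[k] m : ℝ) = (F^[0] m : ℝ) := by
    have h := hper 0
    rw [Nat.zero_add] at h
    rw [h]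
  have hgk : (if dd m k then (0 : ℝ) else 1 / (3 * (F^[k] m : ℝ))) =
      (if dd m 0 then (0 : ℝ) else 1 / (3 * (F^[0] m : ℝ))) := by
    rw [hfk]
    by_cases h : dd m 0
    · rw [if_pos h, if_pos (hdk.2 h)]
    · rw [if_neg h, if_neg (fun h' => h (hdk.1 h'))]
  have hshift : ∑ i ∈ Finset.range k, (if dd m (i + 1) then (0 : ℝ) else
      1 / (3 * (F^[i + 1] m : ℝ))) =
      ∑ i ∈ Finset.range k, (if dd m i then (0 : ℝ) else 1 / (3 * (F^[i] m : ℝ))) := by
    have e1 := Finset.sum_range_succ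
      (fun i => if dd m i then (0 : ℝ) else 1 / (3 * (F^[i] m : ℝ))) k
    have e2 := Finset.sum_range_succ'
      (fun i => if dd m i then (0 : ℝ) else 1 / (3 * (F^[i] m : ℝ))) k
    have e3 : ∑ i ∈ Finset.range (k + 1), (if dd m i then (0 : ℝ) else
        1 / (3 * (F^[i] m : ℝ))) =
        ∑ i ∈ Finset.range k, (if dd m i then (0 : ℝ) else 1 / (3 * (F^[i] m : ℝ))) +
        (if dd m k then (0 : ℝ) else 1 / (3 * (F^[k] m : ℝ))) := e1
    have e4 : ∑ i ∈ Finset.range (k + 1), (if dd m i then (0 : ℝ) else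
        1 / (3 * (F^[i] m : ℝ))) =
        ∑ i ∈ Finset.range k, (if dd m (i + 1) then (0 : ℝ) else
          1 / (3 * (F^[i + 1] m : ℝ))) +
        (if dd m 0 then (0 : ℝ) else 1 / (3 * (F^[0] m : ℝ))) := e2
    rw [hgk] at e3
    linarith
  have hsum := Finset.sum_le_sum (s := Finset.range k)
    (fun i _ => sum_rec m h2 X hX hXi i)
  rw [hshift, Finset.sum_add_distrib, ← Finset.mul_sum] at hsum
  have hcount : ∑ i ∈ Finset.range k, (if sw m i then 1 / (3 * X) else 0) =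
      (nm m k : ℝ) * (1 / (3 * X)) := by
    unfold nm
    rw [← Finset.sum_filter, Finset.sum_const, nsmul_eq_mul]
  rw [hcount] at hsum
  have e3 : 7 / 3 * (nm m k : ℝ) / X = 7 * ((nm m k : ℝ) * (1 / (3 * X))) := by
    field_simp
  rw [e3]
  linarith

end Pool.STN
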